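import Pool.Agent.Helper96.AchievementDefs
import Pool.Agent.Helper96.AchievementProof

/-!
# A category zero-one law for ideal achievement sets

For an ideal `I` on `ℕ` containing the finite sets and a real sequence `x` whose series converges,
the ideal achievement set of `x`, if it has the Baire property in the achievement set of `x`,
is meager or comeager there.
-/

open Filter Topology Set
open Pool.Agent.Helper96.Achievement

namespace Pool.Agent.Results.MP_dc2775_an.ZeroOneLaw

/-- **Category zero-one law for ideal achievement sets.** For every ideal `I ⊇ Fin` on `ℕ` and
every real sequence `x` with convergent series, if the ideal achievement set has the Baire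
property in the achievement set, then it is meager or comeager in the achievement set. -/
theorem result (I : Set (Set ℕ)) (hI : IsIdeal I) (x : ℕ → ℝ)
    (hx : ∃ L : ℝ, Tendsto (fun N : ℕ => ∑ n ∈ Finset.range N, x n) atTop (𝓝 L))
    (hB : BaireMeasurableSet (idealAchievementSet I x)) :
    IsMeagre (idealAchievementSet I x) ∨
      idealAchievementSet I x ∈ residual (achievementSet x) := by
  have hx' : ∃ L, SumsTo x univ L := by
    obtain ⟨L, hL⟩ := hx
    refine ⟨L, ?_⟩
    simpa [SumsTo] using hL
  rcases dichotomy hI.tailInvariant hx' with h | h
  · exact Or.inl h
  · exact Or.inr (mem_residual_of_everywhere hB h)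

end Pool.Agent.Results.MP_dc2775_an.ZeroOneLaw
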